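import Pool.Agent.helper55.VD.SpecE0

/-!
# Row vd:EAZ (MP_07c750_an): from functions to the square integrable functions on the quotient
-/

set_option autoImplicit false

open scoped ENNReal ComplexConjugate
open MeasureTheory Filter Set

namespace Pool.Agent.VDA

open Pool.Agent.VQ (PS KZ cmZ perZ KPZ_stmt)
open Pool.Agent.RPQ (IsOp)

noncomputable section

theorem EAZ_norm {Y : Type} [MeasurableSpace Y] (μ : Measure Y) (f : Lp ℂ 2 μ) :
    ‖f‖ ^ 2 = ∫ a, ‖f a‖ ^ 2 ∂μ := by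
  have h1 := L2.inner_def (𝕜 := ℂ) f f
  rw [inner_self_eq_norm_sq_to_K] at h1
  have h2 : ∀ a, inner ℂ (f a) (f a) = ((‖f a‖ ^ 2 : ℝ) : ℂ) := by
    intro a
    rw [inner_self_eq_norm_sq_to_K]
    push_cast
    rfl
  simp only [h2] at h1
  rw [integral_complex_ofReal] at h1
  have h3 : ((‖f‖ ^ 2 : ℝ) : ℂ) = ((∫ a, ‖f a‖ ^ 2 ∂μ : ℝ) : ℂ) := by
    rw [← h1]
    push_cast
    rfl
  exact_mod_cast h3

theorem EAZ_proof (hKPZ : KPZ_stmt) : EAZ_stmt := by
  intro Γ _ Y _ _ m D d hP K v hK hv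
  have e3 : ∀ y, ∫ x in D, perZ Γ K y x * v x ∂m = OY m K v y := fun y =>
    (((hKPZ Γ Y m D d hP).1 K hK).2.2.2) v hv.meas hv.bdd hv.inv y
  refine ⟨e3, ?_, ?_⟩
  · intro T Φ hT hΦ
    rw [EAZ_norm]
    unfold nY
    refine integral_congr_ae ?_
    have h1 := hT Φ
    have h2 := Lp.coeFn_sub (T Φ) Φ
    filter_upwards [h1, h2, hΦ] with p q1 q2 q3
    rw [q2, Pi.sub_apply, q1, q3]
    have h3 : ∫ z in D, perZ Γ K p z * Φ z ∂m = ∫ z in D, perZ Γ K p z * v z ∂m := by
      refine integral_congr_ae ?_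
      filter_upwards [hΦ] with z hz
      rw [hz]
    rw [h3, e3 p]
  · obtain ⟨B, hB⟩ := hv.bdd
    have hint : IntegrableOn (fun y => ‖v y‖ ^ 2) D m := by
      refine Measure.integrableOn_of_bounded (M := B ^ 2) hP.fin.ne (hv.meas.norm.pow_const 2).aestronglyMeasurable
        (Eventually.of_forall fun y => ?_)
      rw [Real.norm_of_nonneg (by positivity)]
      exact pow_le_pow_left₀ (norm_nonneg _) (hB y) 2
    unfold nY
    rw [ofReal_integral_eq_lintegral_ofReal hint (Eventually.of_forall fun y => by positivity)]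
    refine lintegral_congr fun y => ?_
    rw [ENNReal.ofReal_pow (norm_nonneg _), ofReal_norm]

end

end Pool.Agent.VDA
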